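import Pool.Agent.H18.HX.Targets

/-!
# (EPB) the relation which follows from nilpotence
-/

set_option autoImplicit false

open MvPolynomial
open Pool.Agent.H12.ZD (pmap v O Res DenseOrbit NoInv)
open Pool.Agent.H18.HIT Pool.Agent.H18.HX

namespace Pool.Agent.H52.HX

section derivative

variable {R : Type} [CommRing R]

theorem coeff_divX_iter (j : ℕ) (p : Polynomial R) (m : ℕ) :
    (Polynomial.divX^[j] p).coeff m = p.coeff (m + j) := by
  induction j generalizing p with
  | zero => rfl
  | succ j ih =>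
    rw [Function.iterate_succ_apply, ih, Polynomial.coeff_divX]
    congr 1

/-- the derivative as a sum of quotients -/
theorem sum_divX {r : ℕ} {p : Polynomial R} (hp : p.natDegree ≤ r) :
    ∑ j ∈ Finset.range r, Polynomial.divX^[j + 1] p * Polynomial.X ^ j =
      Polynomial.derivative p := by
  ext n
  rw [Polynomial.finsetSum_coeff, Polynomial.coeff_derivative]
  have h1 : ∀ j ∈ Finset.range r, (Polynomial.divX^[j + 1] p * Polynomial.X ^ j).coeff n =
      if j ≤ n then p.coeff (n + 1) else 0 := by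
    intro j _
    rw [Polynomial.coeff_mul_X_pow']
    split_ifs with h
    · rw [coeff_divX_iter]
      congr 1
      omega
    · rfl
  rw [Finset.sum_congr rfl h1]
  rcases lt_or_ge n r with h | h
  · rw [← Finset.sum_filter]
    have h2 : (Finset.range r).filter (fun j => j ≤ n) = Finset.range (n + 1) := by
      ext j
      rw [Finset.mem_filter, Finset.mem_range, Finset.mem_range]
      omega
    rw [h2, Finset.sum_const, Finset.card_range, nsmul_eq_mul]
    push_cast
    ring
  · have h2 : p.coeff (n + 1) = 0 := Polynomial.coeff_eq_zero_of_natDegree_lt (by omega)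
    rw [h2, zero_mul]
    refine Finset.sum_eq_zero fun j _ => ?_
    split_ifs <;> rfl

theorem fse_pderiv {N : ℕ} (P : Po (N + 1) R) :
    finSuccEquiv R N (pderiv 0 P) = Polynomial.derivative (finSuccEquiv R N P) := by
  induction P using MvPolynomial.induction_on with
  | C a => simp [finSuccEquiv_apply]
  | add p q hp hq => rw [map_add, map_add, hp, hq, map_add, Polynomial.derivative_add]
  | mul_X p i hp =>
    rw [pderiv_mul, map_add, map_mul, map_mul, hp, map_mul, Polynomial.derivative_mul]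
    refine Fin.cases ?_ (fun j => ?_) i
    · rw [finSuccEquiv_X_zero, pderiv_X_self]
      simp
    · rw [finSuccEquiv_X_succ, pderiv_X_of_ne (Fin.succ_ne_zero j)]
      simp

/-- the derivative in the variable `X 0` -/
theorem sum_ec {N r : ℕ} {P : Po (N + 1) R} (hP : P.totalDegree ≤ r) :
    ∑ j ∈ Finset.range r, ec P j * X 0 ^ j = pderiv 0 P := by
  apply (finSuccEquiv R N).injective
  rw [fse_pderiv, map_sum, ← sum_divX (r := r) (p := finSuccEquiv R N P)]
  · refine Finset.sum_congr rfl fun j _ => ?_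
    rw [map_mul, map_pow, finSuccEquiv_X_zero]
    unfold ec
    rw [AlgEquiv.apply_symm_apply]
  · rw [natDegree_finSuccEquiv]
    exact (degreeOf_le_totalDegree P 0).trans hP

end derivative

theorem map_aeval {N : ℕ} {κ : Type} [CommRing κ] (φ : κ →+* κ) {F : Tup N κ} {h : Po N κ}
    (hF : ∀ i, map φ (F i) = F i) (hh : map φ h = h) : map φ (aeval F h) = aeval F h := by
  have h1 := map_bind₁ φ F h
  have h2 : (fun i => map φ (F i)) = F := funext hF
  rw [hh, h2] at h1
  exact h1

/-- the Frobenius map modulo an ideal -/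
theorem frob_mod {N p t : ℕ} {κ : Type} [Field κ] [Fact p.Prime] [CharP κ p] {F : Tup N κ}
    {J : Ideal (Po N κ)} (hJ : ∀ i, X i ^ (p ^ t) - F i ∈ J) {h : Po N κ}
    (hh : map (iterateFrobenius κ p t) h = h) : h ^ (p ^ t) - aeval F h ∈ J := by
  have : ExpChar (Po N κ) p := ExpChar.prime Fact.out
  have h1 : (Ideal.Quotient.mk J).comp (iterateFrobenius (Po N κ) p t) =
      ((Ideal.Quotient.mk J).comp (aeval F : Po N κ →ₐ[κ] Po N κ).toRingHom).comp
        (map (iterateFrobenius κ p t)) := by
    apply MvPolynomial.ringHom_ext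
    · intro a
      show Ideal.Quotient.mk J (iterateFrobenius (Po N κ) p t (C a)) =
        Ideal.Quotient.mk J (aeval F (map (iterateFrobenius κ p t) (C a)))
      rw [map_C, iterateFrobenius_def, iterateFrobenius_def, aeval_C, algebraMap_eq, C_pow]
    · intro i
      show Ideal.Quotient.mk J (iterateFrobenius (Po N κ) p t (X i)) =
        Ideal.Quotient.mk J (aeval F (map (iterateFrobenius κ p t) (X i)))
      rw [map_X, iterateFrobenius_def, aeval_X, Ideal.Quotient.eq]
      exact hJ i
  have h2 := RingHom.congr_fun h1 h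
  have h3 : Ideal.Quotient.mk J (iterateFrobenius (Po N κ) p t h) =
      Ideal.Quotient.mk J (aeval F (map (iterateFrobenius κ p t) h)) := h2
  rw [hh, iterateFrobenius_def, Ideal.Quotient.eq] at h3
  exact h3

theorem frob_iter {N p t : ℕ} {κ : Type} [Field κ] [Fact p.Prime] [CharP κ p] {F : Tup N κ}
    {J : Ideal (Po N κ)} (hJ : ∀ i, X i ^ (p ^ t) - F i ∈ J)
    (hF : ∀ i, map (iterateFrobenius κ p t) (F i) = F i) {h : Po N κ}
    (hh : map (iterateFrobenius κ p t) h = h) (n : ℕ) :
    map (iterateFrobenius κ p t) ((fun h => aeval F h)^[n] h) = (fun h => aeval F h)^[n] h ∧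
      h ^ ((p ^ t) ^ n) - (fun h => aeval F h)^[n] h ∈ J := by
  induction n with
  | zero =>
    refine ⟨hh, ?_⟩
    rw [pow_zero, pow_one, Function.iterate_zero, id_eq, sub_self]
    exact Ideal.zero_mem J
  | succ n ih =>
    obtain ⟨ih1, ih2⟩ := ih
    rw [Function.iterate_succ_apply']
    refine ⟨map_aeval _ hF ih1, ?_⟩
    have h1 := frob_mod hJ ih1
    have h2 : h ^ ((p ^ t) ^ (n + 1)) - ((fun h => aeval F h)^[n] h) ^ (p ^ t) ∈ J := by
      rw [pow_succ, pow_mul]
      exact J.mem_of_dvd (sub_dvd_pow_sub_pow _ _ _) ih2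
    have h3 := J.add_mem h2 h1
    rw [sub_add_sub_cancel] at h3
    exact h3

theorem pf_EPB : T_EPB := by
  intro N r p t κ _ _ _ P F b hP _ hPf hFf hbf h0 hnil
  set Q := p ^ t with hQ
  set e₀ := ep P F r Q with he₀
  let J : Ideal (Po (N + 1) κ) :=
    Submodule.comap (LinearMap.mulLeft (Po (N + 1) κ) e₀) (fid P F Q)
  have hmem : ∀ h, h ∈ J ↔ e₀ * h ∈ fid P F Q := fun h => Iff.rfl
  have hle : ∀ h ∈ fid P F Q, h ∈ J := fun h hh => (hmem h).2 (Ideal.mul_mem_left _ _ hh)
  have hJ : ∀ i : Fin (N + 1), X i ^ Q - F i ∈ J := by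
    intro i
    refine Fin.cases ?_ (fun j => ?_) i
    · exact (hmem _).2 h0
    · refine hle _ (Ideal.subset_span (Set.mem_insert_of_mem _ ⟨j, rfl⟩))
  -- the value of `e₀` modulo `J`
  have hval : e₀ - aeval F (pderiv 0 P) ∈ J := by
    have h1 : aeval F (pderiv 0 P) = ∑ j ∈ Finset.range r, aeval F (ec P j) * F 0 ^ j := by
      rw [← sum_ec (hP.totalDegree_le), map_sum]
      refine Finset.sum_congr rfl fun j _ => ?_
      rw [map_mul, map_pow, aeval_X]
    rw [h1, he₀]
    unfold ep
    rw [← Finset.sum_sub_distrib]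
    refine J.sum_mem fun j _ => ?_
    rw [← mul_sub, pow_mul]
    exact J.mul_mem_left _ (J.mem_of_dvd (sub_dvd_pow_sub_pow _ _ _) (hJ 0))
  -- the element with fixed coefficients
  have hfix : map (iterateFrobenius κ p t) (aeval F (pderiv 0 P) * b) =
      aeval F (pderiv 0 P) * b := by
    rw [map_mul, hbf]
    congr 1
    refine map_aeval _ hFf ?_
    rw [← pderiv_map, hPf]
  obtain ⟨-, h2⟩ := frob_iter hJ hFf hfix (N + 1)
  have h3 : (aeval F (pderiv 0 P) * b) ^ (Q ^ (N + 1)) ∈ J := by
    have h4 : e₀ * b - aeval F (pderiv 0 P) * b ∈ J := by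
      rw [← sub_mul]
      exact J.mul_mem_right _ hval
    have h5 : (e₀ * b) ^ (Q ^ (N + 1)) - (aeval F (pderiv 0 P) * b) ^ (Q ^ (N + 1)) ∈ J :=
      J.mem_of_dvd (sub_dvd_pow_sub_pow _ _ _) h4
    have h6 := J.sub_mem (hle _ hnil) h5
    rw [sub_sub_cancel] at h6
    exact h6
  have h4 := J.sub_mem h3 h2
  rw [sub_sub_cancel] at h4
  exact (hmem _).1 h4

end Pool.Agent.H52.HX
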