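import Pool.Agent.H18.HX.Targets

/-!
# (POL) from the cone to the projective variety
-/

set_option autoImplicit false

open MvPolynomial
open Pool.Agent.H12.ZD (pmap v O Res DenseOrbit NoInv)
open Pool.Agent.H18.HIT Pool.Agent.H18.HX

namespace Pool.Agent.H52.HX

theorem hom_eval {N : ℕ} {k : Type} [Field k] {f : Po N k} {d : ℕ} (hf : f.IsHomogeneous d)
    (t : k) (x : Fin N → k) : eval (fun i => t * x i) f = t ^ d * eval x f := by
  rw [eval_eq', eval_eq', Finset.mul_sum]
  refine Finset.sum_congr rfl fun m hm => ?_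
  have h1 : m.degree = d := by
    have h2 := hf (mem_support_iff.1 hm)
    exact (DFunLike.congr_fun (Finsupp.degree_eq_weight_one (R := ℕ)) m).trans h2
  have h2 : ∏ i, (t * x i) ^ m i = t ^ d * ∏ i, x i ^ m i := by
    simp only [mul_pow]
    rw [Finset.prod_mul_distrib, Finset.prod_pow_eq_pow_sum, ← h1, Finsupp.degree_eq_sum]
  rw [h2]
  ring

theorem pf_POL : T_POL := by
  intro L n q k _ _ I f hq hf hX hI hC
  classical
  obtain ⟨i₀, hi₀⟩ := hX
  obtain ⟨c, hc, hcov⟩ := hC
  refine ⟨c * X i₀, ?_, ?_⟩
  · intro h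
    rcases hI.mem_or_mem h with h | h
    · exact hc h
    · exact hi₀ h
  intro y hy hyc
  rw [map_mul, eval_X] at hyc
  have hy1 : eval y c ≠ 0 := left_ne_zero_of_mul hyc
  have hy2 : y i₀ ≠ 0 := right_ne_zero_of_mul hyc
  obtain ⟨S, hS, hSx⟩ := hcov y hy hy1
  -- proportional points
  have hprop : ∀ x ∈ S, ∀ x' ∈ S, ∀ t : k, (∀ i, x' i = t * x i) → t ^ q = 1 := by
    intro x hx x' hx' t h
    have h1 : x' = fun i => t * x i := funext h
    have h2 : y i₀ = t ^ q * y i₀ := by
      have h3 : pmap f x' i₀ = t ^ q * pmap f x i₀ := by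
        rw [h1]
        exact hom_eval (hf i₀) t x
      rw [(hSx x hx).2, (hSx x' hx').2] at h3
      exact h3
    have h3 : (t ^ q - 1) * y i₀ = 0 := by
      rw [sub_mul, ← h2, one_mul, sub_self]
    exact sub_eq_zero.1 ((mul_eq_zero.1 h3).resolve_right hy2)
  -- a maximal set of representatives
  let good : Finset (Fin L → k) → Prop := fun T =>
    ∀ x ∈ T, ∀ x' ∈ T, ∀ t : k, (∀ i, x' i = t * x i) → x' = x
  obtain ⟨T, hT, hmax⟩ := Finset.exists_max_image (S.powerset.filter good) Finset.card
    ⟨∅, by
      rw [Finset.mem_filter]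
      refine ⟨Finset.empty_mem_powerset S, fun x hx => ?_⟩
      exact absurd hx (Finset.notMem_empty x)⟩
  rw [Finset.mem_filter, Finset.mem_powerset] at hT
  obtain ⟨hTS, hTg⟩ := hT
  set U : Finset k := (Polynomial.nthRoots q (1 : k)).toFinset with hU
  have hUc : U.card ≤ q :=
    (Multiset.toFinset_card_le _).trans (Polynomial.card_nthRoots q 1)
  have hUm : ∀ t : k, t ^ q = 1 → t ∈ U := by
    intro t ht
    rw [hU, Multiset.mem_toFinset, Polynomial.mem_nthRoots (by omega)]
    exact ht
  have hcover : S ⊆ (T ×ˢ U).image fun z => fun i => z.2 * z.1 i := by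
    intro x hx
    rw [Finset.mem_image]
    by_cases hxT : x ∈ T
    · refine ⟨(x, 1), Finset.mem_product.2 ⟨hxT, hUm 1 (one_pow q)⟩, ?_⟩
      funext i
      exact one_mul _
    · by_contra hno
      have hg : good (insert x T) := by
        intro a ha a' ha' t hta
        rw [Finset.mem_insert] at ha ha'
        rcases ha with rfl | ha <;> rcases ha' with rfl | ha'
        · rfl
        · exfalso
          have ht := hprop a hx a' (hTS ha') t hta
          have ht0 : t ≠ 0 := by
            intro h
            rw [h, zero_pow (by omega)] at ht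
            exact zero_ne_one ht
          refine hno ⟨(a', t⁻¹), Finset.mem_product.2 ⟨ha', hUm _ ?_⟩, ?_⟩
          · rw [inv_pow, ht, inv_one]
          · funext i
            show t⁻¹ * a' i = a i
            rw [hta i, inv_mul_cancel_left₀ ht0]
        · exfalso
          have ht := hprop a (hTS ha) a' hx t hta
          refine hno ⟨(a, t), Finset.mem_product.2 ⟨ha, hUm _ ht⟩, ?_⟩
          funext i
          exact (hta i).symm
        · exact hTg a ha a' ha' t hta
      have h1 := hmax (insert x T) (by
        rw [Finset.mem_filter, Finset.mem_powerset]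
        exact ⟨Finset.insert_subset hx hTS, hg⟩)
      rw [Finset.card_insert_of_notMem hxT] at h1
      omega
  have hcard : q ^ n ≤ T.card := by
    have h1 : S.card ≤ T.card * U.card := by
      refine (Finset.card_le_card hcover).trans (Finset.card_image_le.trans ?_)
      rw [Finset.card_product]
    have h2 : q ^ n * q ≤ T.card * q := by
      rw [← pow_succ, ← hS]
      exact h1.trans (Nat.mul_le_mul_left _ hUc)
    exact Nat.le_of_mul_le_mul_right h2 (by omega)
  obtain ⟨T', hT', hT'c⟩ := Finset.exists_subset_card_eq hcard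
  refine ⟨T', hT'c, fun x hx => hSx x (hTS (hT' hx)), ?_⟩
  intro x hx x' hx' t h
  exact hTg x (hT' hx) x' (hT' hx') t h

end Pool.Agent.H52.HX
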